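import Pool.Agent.R920.WP.One

/-!
# Free diagonal quotients of hypersurfaces in products of projective spaces
-/

set_option autoImplicit false

namespace Pool.Agent.R920.WP

open MvPolynomial Pool.Agent.R920.WC Pool.Agent.R920.WQ

variable {G : Type} [Group G] {ι S : Type} [Fintype ι] [DecidableEq ι] [Fintype S] [DecidableEq S]

namespace Setup

variable {b : ι → S} {α : ι → G →* ℂˣ} {d : S → ℕ} {f : MvPolynomial ι ℂ} [Finite G]

/-- points which are not separated are in one orbit -/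
theorem pts (S' : Setup b α d f) (hb : Function.Surjective b) (hS : ∀ i : S, ∃ k, k ≠ i)
    {e : S → ℕ} (he : ∀ j, Nat.card G + 1 ≤ e j) (hde : ∀ j, d j ≤ e j) (χ : G →* ℂˣ)
    {v w : ι → ℂ} (hv : Rel b v) (hw : Rel b w) (hfv : eval v f = 0) (hfw : eval w f = 0)
    (h : ∀ s, IsSec b α e χ s → eval v s = 0 → eval w s = 0) :
    ∃ (t : S → ℂ) (g : G), ∀ l, w l = t (b l) * ((α l g : ℂ) * v l) := by
  classical
  have he' : ∀ j, Nat.card G ≤ e j := fun j => by have := he j; omega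
  obtain ⟨s0, hs0, hs0v⟩ := S'.bpf hb hS he' χ hv hfv
  obtain ⟨c, hc⟩ : ∃ c : ℂ, ∀ s, IsSec b α e χ s → eval w s = c * eval v s := by
    refine ⟨eval w s0 / eval v s0, fun s hs => ?_⟩
    have h1 := h _ (hs.sub (hs0.smul (eval v s / eval v s0))) (by
      rw [map_sub, map_mul, eval_C, div_mul_cancel₀ _ hs0v, sub_self])
    rw [map_sub, map_mul, eval_C, sub_eq_zero] at h1
    rw [h1]
    field_simp
  have hc0 : c ≠ 0 := by
    obtain ⟨s1, hs1, hs1w⟩ := S'.bpf hb hS he' χ hw hfw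
    intro h0
    apply hs1w
    rw [hc s1 hs1, h0, zero_mul]
  have hc' : ∀ s, IsSec b α e χ s → eval v s = c⁻¹ * eval w s := by
    intro s hs
    rw [hc s hs, inv_mul_cancel_left₀ hc0]
  have h1 : ∀ l, w l ≠ 0 → v l ≠ 0 := fun l hwl hvl => S'.supp hb hS he χ hw hfw hc hwl hvl
  have h2 : ∀ l, v l ≠ 0 → w l ≠ 0 := fun l hvl hwl => S'.supp hb hS he χ hv hfv hc' hvl hwl
  obtain ⟨z, hz⟩ : ∃ z : ι → ℂˣ, ∀ l, w l = (z l : ℂ) * v l := by
    refine ⟨fun l => if hl : v l = 0 then 1 else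
      Units.mk0 (w l / v l) (div_ne_zero (h2 l hl) hl), fun l => ?_⟩
    by_cases hl : v l = 0
    · have hwl : w l = 0 := by
        by_contra hwl
        exact h1 l hwl hl
      rw [hl, hwl, mul_zero]
    · simp only [dif_neg hl, Units.val_mk0]
      rw [div_mul_cancel₀ _ hl]
  choose p hp hvp using hv
  obtain ⟨q, hq, hvq⟩ : ∃ q, q ≠ p (b q) ∧ v q ≠ 0 := by
    by_contra hcon
    push Not at hcon
    exact S'.eval_ne hp hvp hcon hfv
  by_cases hr : ∃ r, b r ≠ b q ∧ r ≠ p (b r) ∧ v r ≠ 0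
  · obtain ⟨r, hr1, hr2, hr3⟩ := hr
    obtain ⟨t, g, htg⟩ := S'.pts_two hb he χ hc0 hc hz hp hvp hq hr2 hr1.symm hvq hr3
    exact ⟨fun j => t j, g, htg⟩
  · push Not at hr
    exact S'.pts_one he hde χ hfv hfw hc hz hp hvp hq hvq hr

/-- tangent vectors which are not separated are zero -/
theorem tan (S' : Setup b α d f) (hb : Function.Surjective b) (hS : ∀ i : S, ∃ k, k ≠ i)
    {e : S → ℕ} (he : ∀ j, Nat.card G + 1 ≤ e j) (hde : ∀ j, d j ≤ e j) (χ : G →* ℂˣ)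
    {v u : ι → ℂ} (hv : Rel b v) (hfv : eval v f = 0) (hfu : dir v u f = 0)
    (h : ∀ s, IsSec b α e χ s → eval v s = 0 → dir v u s = 0) :
    ∃ τ : S → ℂ, ∀ l, u l = τ (b l) * v l := by
  classical
  have he' : ∀ j, Nat.card G ≤ e j := fun j => by have := he j; omega
  obtain ⟨s0, hs0, hs0v⟩ := S'.bpf hb hS he' χ hv hfv
  obtain ⟨c, hc⟩ : ∃ c : ℂ, ∀ s, IsSec b α e χ s → dir v u s = c * eval v s := by
    refine ⟨dir v u s0 / eval v s0, fun s hs => ?_⟩
    have h1 := h _ (hs.sub (hs0.smul (eval v s / eval v s0))) (by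
      rw [map_sub, map_mul, eval_C, div_mul_cancel₀ _ hs0v, sub_self])
    rw [dir_sub, dir_mul, dir_C, mul_zero, add_zero, eval_C, sub_eq_zero] at h1
    rw [h1]
    field_simp
  choose p hp hvp using hv
  obtain ⟨q, hq, hvq⟩ : ∃ q, q ≠ p (b q) ∧ v q ≠ 0 := by
    by_contra hcon
    push Not at hcon
    exact S'.eval_ne hp hvp hcon hfv
  by_cases hr : ∃ r, b r ≠ b q ∧ r ≠ p (b r) ∧ v r ≠ 0
  · obtain ⟨r, hr1, hr2, hr3⟩ := hr
    exact S'.tan_two hb he χ hc hp hvp hq hr2 hr1.symm hvq hr3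
  · push Not at hr
    exact S'.tan_one hb he hde χ hfv hfu hc hp hvp hq hvq hr

end Setup

end Pool.Agent.R920.WP
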