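import Pool.Agent.R920.WP.Slice

/-!
# Points with one nonzero coordinate in all blocks but one, the separation
-/

set_option autoImplicit false

namespace Pool.Agent.R920.WP

open MvPolynomial Pool.Agent.R920.WC Pool.Agent.R920.WQ
open Pool.Agent.Results.MP_e09b14_ag.SmallDiagonalQuotients (DiagonalCover CompleteIntersection
  Section)

variable {G : Type} [Group G] {ι S : Type} [Fintype ι] [DecidableEq ι] [Fintype S] [DecidableEq S]

theorem eval_bind {σ : Type} (β : σ → ℂ) (q : MvPolynomial σ ℂ) (y : σ → ℂ) :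
    eval y (bind₁ (fun a => C (β a) * X a) q) = eval (fun a => β a * y a) q := by
  have h2 : ((aeval y : MvPolynomial σ ℂ →ₐ[ℂ] ℂ).comp
      (bind₁ (fun a => C (β a) * X a))) = aeval (fun a => β a * y a) := by
    apply MvPolynomial.algHom_ext
    intro j
    simp
  have h3 := congrArg (fun φ => φ q) (congrArg DFunLike.coe h2)
  simp only [AlgHom.comp_apply, coe_aeval_eq_eval] at h3
  exact h3

namespace Setup

variable {b : ι → S} {α : ι → G →* ℂˣ} {d : S → ℕ} {f : MvPolynomial ι ℂ}

/-- the action on the slice -/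
theorem exists_cover (S' : Setup b α d f) {i : S} {N : ℕ} (ε : {x // b x = i} ≃ Fin (N + 1))
    {p : S → ι} (hp : ∀ j, b (p j) = j) {v : ι → ℂ} (hvp : ∀ j, v (p j) ≠ 0)
    (hv0 : ∀ x, b x ≠ i → x ≠ p (b x) → v x = 0) :
    ∃ E : DiagonalCover G N, E.I = Ideal.span {res ε v f} ∧
      E.α = fun a => α (ε.symm a).1 := by
  have hmem : ∀ y : Fin (N + 1) → ℂ, (∀ q ∈ Ideal.span {res ε v f}, eval y q = 0) →
      eval (full ε v y) f = 0 := by
    intro y h
    have := h _ (Ideal.mem_span_singleton_self _)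
    rwa [eval_res] at this
  refine ⟨{ I := Ideal.span {res ε v f}
            homogeneous := Pool.Agent.TH144.MB.hom_span (by
              intro q hq
              rw [Set.mem_singleton_iff.1 hq]
              exact ⟨d i, res_hom ε v S'.hf⟩)
            α := fun a => α (ε.symm a).1
            stable := ?_
            free := ?_ }, rfl, rfl⟩
  · intro g q hq
    obtain ⟨c, hc⟩ := S'.hinv g
    set T : S → ℂ := fun j => if j = i then 1 else (α (p j) g : ℂ) with hT
    have hT0 : ∏ j, T j ^ d j ≠ 0 := by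
      refine Finset.prod_ne_zero_iff.2 fun j _ => pow_ne_zero _ ?_
      rw [hT]
      simp only
      split_ifs
      · exact one_ne_zero
      · exact Units.ne_zero _
    have hbind : bind₁ (fun a => C ((α (ε.symm a).1 g : ℂˣ) : ℂ) * X a) (res ε v f) =
        C (c / ∏ j, T j ^ d j) * res ε v f := by
      apply MvPolynomial.funext
      intro y
      rw [eval_bind, map_mul, eval_C, eval_res, eval_res]
      have h1 : (fun x => (α x g : ℂ) * full ε v y x) =
          fun x => T (b x) * full ε v (fun a => (α (ε.symm a).1 g : ℂ) * y a) x := by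
        funext x
        unfold full
        by_cases h : b x = i
        · rw [dif_pos h, dif_pos h, hT]
          simp only [h, if_true, one_mul, Equiv.symm_apply_apply]
        · rw [dif_neg h, dif_neg h, hT]
          simp only [h, if_false]
          by_cases hx : x = p (b x)
          · rw [← hx]
          · rw [hv0 x h hx, mul_zero, mul_zero]
      have h2 := hc (full ε v y)
      rw [h1, eval_scale S'.hf] at h2
      rw [div_mul_eq_mul_div, eq_div_iff hT0, ← h2]
      ring
    obtain ⟨r, rfl⟩ := Ideal.mem_span_singleton.1 hq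
    rw [map_mul, hbind]
    exact Ideal.mul_mem_right _ _ (Ideal.mul_mem_left _ _ (Ideal.mem_span_singleton_self _))
  · intro y hy hfy g μ h
    refine S'.hfree (full ε v y) ?_ (hmem y hfy) g
      (fun j => if j = i then μ else (α (p j) g : ℂ)) ?_
    · intro j
      by_cases hj : j = i
      · subst hj
        obtain ⟨a, ha⟩ : ∃ a, y a ≠ 0 := by
          by_contra hcon
          push Not at hcon
          exact hy (funext hcon)
        refine ⟨(ε.symm a).1, (ε.symm a).2, ?_⟩
        have h1 := congrFun (cut_full ε v y) a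
        unfold cut at h1
        rw [h1]
        exact ha
      · refine ⟨p j, hp j, ?_⟩
        have h1 : b (p j) ≠ i := by rw [hp j]; exact hj
        simp only [full, h1, dif_neg, not_false_eq_true]
        exact hvp j
    · intro x
      by_cases hx : b x = i
      · have h1 := h (ε ⟨x, hx⟩)
        rw [Equiv.symm_apply_apply] at h1
        simp only [full, hx, dif_pos, if_true]
        exact h1
      · simp only [full, hx, dif_neg, not_false_eq_true, if_false]
        by_cases hxp : x = p (b x)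
        · rw [← hxp]
        · rw [hv0 x hx hxp, mul_zero, mul_zero]

/-- from sections on the slice to sections -/
theorem lift_isSec {e : S → ℕ} {i : S} {N : ℕ} (ε : {x // b x = i} ≃ Fin (N + 1))
    {p : S → ι} (hp : ∀ j, b (p j) = j) (χ : G →* ℂˣ) {s : MvPolynomial (Fin (N + 1)) ℂ}
    (hs : s.IsHomogeneous (e i))
    (hs2 : ∀ (g : G) (x : Fin (N + 1) → ℂ), eval (fun a => (α (ε.symm a).1 g : ℂ) * x a) s =
      (χ * (∏ j ∈ Finset.univ.erase i, α (p j) ^ e j)⁻¹) g * eval x s) :
    IsSec b α e χ (up ε s * ∏ j ∈ Finset.univ.erase i, X (p j) ^ e j) := by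
  refine ⟨fun j => ?_, fun g x => ?_⟩
  · have h1 : IsWeightedHomogeneous (ind b j)
        (∏ j' ∈ Finset.univ.erase i, (X (p j') : MvPolynomial ι ℂ) ^ e j')
        (∑ j' ∈ Finset.univ.erase i, e j' • ind b j (p j')) :=
      IsWeightedHomogeneous.prod _ _ _ fun a _ => (isWeightedHomogeneous_X ℂ _ _).pow _
    have h2 := (up_hom ε hs j).mul h1
    convert h2 using 1
    simp only [ind, hp, smul_eq_mul, mul_ite, mul_one, mul_zero]
    by_cases hji : j = i
    · subst hji
      rw [if_pos rfl, Finset.sum_eq_zero]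
      · omega
      · intro j' hj'
        rw [if_neg (Finset.ne_of_mem_erase hj')]
    · rw [if_neg hji, Finset.sum_eq_single j]
      · simp
      · intro j' _ hj'
        rw [if_neg hj']
      · intro h3
        exact absurd (Finset.mem_erase.2 ⟨hji, Finset.mem_univ _⟩) h3
  · have h1 := hs2 g (cut ε x)
    simp only [map_mul, map_prod, map_pow, eval_X, eval_up, mul_pow, Finset.prod_mul_distrib]
    have h2 : cut ε (fun i => (α i g : ℂ) * x i) =
        fun a => (α (ε.symm a).1 g : ℂ) * cut ε x a := rfl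
    rw [h2, h1]
    simp only [MonoidHom.mul_apply, MonoidHom.inv_apply, MonoidHom.finsetProd_apply,
      MonoidHom.pow_apply, Units.val_mul, Units.val_inv_eq_inv_val, Units.coe_prod,
      Units.val_pow_eq_pow_val]
    have h3 : (∏ j ∈ Finset.univ.erase i, ((α (p j) g : ℂˣ) : ℂ) ^ e j) ≠ 0 :=
      Finset.prod_ne_zero_iff.2 fun j _ => pow_ne_zero _ (Units.ne_zero _)
    field_simp

variable [Finite G]

/-- the theorem on the slice -/
theorem slice_result (S' : Setup b α d f) {e : S → ℕ} {p : S → ι} (hp : ∀ j, b (p j) = j)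
    {v : ι → ℂ} (hvp : ∀ j, v (p j) ≠ 0) {q : ι} (hq : q ≠ p (b q))
    (hge : Nat.card G ≤ e (b q)) (hde : d (b q) ≤ e (b q))
    (hv0 : ∀ x, b x ≠ b q → x ≠ p (b x) → v x = 0) (χ : G →* ℂˣ) :
    ∃ (n : ℕ) (ε : {x // b x = b q} ≃ Fin (n + 1 + 1)),
      (∀ y z : Fin (n + 1 + 1) → ℂ, y ≠ 0 → z ≠ 0 → eval (full ε v y) f = 0 →
        eval (full ε v z) f = 0 → (¬ ∃ (g : G) (c : ℂ), ∀ a, z a = c * ((α (ε.symm a).1 g : ℂ) * y a)) →
        ∃ s, IsSec b α e χ (up ε s * ∏ j ∈ Finset.univ.erase (b q), X (p j) ^ e j) ∧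
          eval y s = 0 ∧ eval z s ≠ 0) ∧
      (∀ y u : Fin (n + 1 + 1) → ℂ, y ≠ 0 → eval (full ε v y) f = 0 →
        dir y u (res ε v f) = 0 → (¬ ∃ c : ℂ, ∀ a, u a = c * y a) →
        ∃ s, IsSec b α e χ (up ε s * ∏ j ∈ Finset.univ.erase (b q), X (p j) ^ e j) ∧
          eval y s = 0 ∧ dir y u s ≠ 0) := by
  classical
  obtain ⟨n, hn⟩ : ∃ n, Fintype.card {x // b x = b q} = n + 1 + 1 := by
    have h1 : 1 < Fintype.card {x // b x = b q} := by
      rw [Fintype.one_lt_card_iff]
      exact ⟨⟨q, rfl⟩, ⟨p (b q), hp _⟩, fun h => hq (congrArg Subtype.val h)⟩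
    exact ⟨Fintype.card {x // b x = b q} - 2, by omega⟩
  set ε := Fintype.equivFinOfCardEq hn with hε
  obtain ⟨E, hE1, hE2⟩ := S'.exists_cover ε hp hvp hv0
  have hCI : CompleteIntersection E.I n ((d (b q) : ℤ) - (n + 2)) := by
    refine ⟨1, fun _ => res ε v f, fun _ => d (b q),
      fun _ => ⟨res_hom ε v S'.hf, S'.hd _⟩, ?_, rfl, ?_⟩
    · rw [hE1, Set.range_const]
    · simp only [Fin.sum_univ_one]
      push_cast
      ring
  have hmemI : ∀ y : Fin (n + 1 + 1) → ℂ, eval (full ε v y) f = 0 →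
      ∀ r ∈ E.I, eval y r = 0 := by
    intro y h r hr
    rw [hE1] at hr
    obtain ⟨r', rfl⟩ := Ideal.mem_span_singleton.1 hr
    rw [map_mul, eval_res, h, zero_mul]
  obtain ⟨r1, r2, r3⟩ :=
    Pool.Agent.Results.MP_e09b14_ag.SmallDiagonalQuotients.result E n ((d (b q) : ℤ) - (n + 2))
      (Or.inl hCI) 1 (e (b q) - d (b q) + (n + 2)) (e (b q)) le_rfl (by omega) (by
        push_cast [Nat.cast_sub hde]
        ring) (Or.inl hge) (χ * (∏ j ∈ Finset.univ.erase (b q), α (p j) ^ e j)⁻¹)
  have hlift : ∀ s, Section E (e (b q)) (χ * (∏ j ∈ Finset.univ.erase (b q), α (p j) ^ e j)⁻¹) s →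
      IsSec b α e χ (up ε s * ∏ j ∈ Finset.univ.erase (b q), X (p j) ^ e j) := by
    intro s hs
    refine lift_isSec ε hp χ hs.1 fun g x => ?_
    have h1 := hs.2 g x
    rw [hE2] at h1
    exact h1
  refine ⟨n, ε, ?_, ?_⟩
  · intro y z hy hz hfy hfz hne
    obtain ⟨s, hs, h1, h2⟩ := r2 y z hy hz (hmemI y hfy) (hmemI z hfz) (by
      rintro ⟨g, c, h⟩
      refine hne ⟨g, c, fun a => ?_⟩
      rw [h a, hE2])
    exact ⟨s, hlift s hs, h1, h2⟩
  · intro y u hy hfy hfu hne
    obtain ⟨s, hs, h1, h2⟩ := r3 y u hy (hmemI y hfy) (by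
      intro r hr
      rw [hE1] at hr
      obtain ⟨r', rfl⟩ := Ideal.mem_span_singleton.1 hr
      change dir y u (res ε v f * r') = 0
      rw [dir_mul, hfu, eval_res, hfy]
      ring) (by
      rintro ⟨c, h⟩
      exact hne ⟨c, h⟩)
    exact ⟨s, hlift s hs, h1, h2⟩

/-- points are separated -/
theorem pts_one (S' : Setup b α d f) {e : S → ℕ} (he : ∀ j, Nat.card G + 1 ≤ e j)
    (hde : ∀ j, d j ≤ e j) (χ : G →* ℂˣ) {v w : ι → ℂ} (hfv : eval v f = 0)
    (hfw : eval w f = 0) {c : ℂ} (hc : ∀ s, IsSec b α e χ s → eval w s = c * eval v s)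
    {z : ι → ℂˣ} (hz : ∀ l, w l = (z l : ℂ) * v l)
    {p : S → ι} (hp : ∀ j, b (p j) = j) (hvp : ∀ j, v (p j) ≠ 0)
    {q : ι} (hq : q ≠ p (b q)) (hvq : v q ≠ 0)
    (hv0 : ∀ x, b x ≠ b q → x ≠ p (b x) → v x = 0) :
    ∃ (t : S → ℂ) (g : G), ∀ l, w l = t (b l) * ((α l g : ℂ) * v l) := by
  obtain ⟨n, ε, h1, _⟩ := S'.slice_result hp hvp hq (by have := he (b q); omega) (hde _) hv0 χ
  have hy0 : cut ε v ≠ 0 := by
    intro h
    have := congrFun h (ε ⟨q, rfl⟩)
    simp only [cut, Equiv.symm_apply_apply, Pi.zero_apply] at this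
    exact hvq this
  have hz0 : cut ε w ≠ 0 := by
    intro h
    have := congrFun h (ε ⟨q, rfl⟩)
    simp only [cut, Equiv.symm_apply_apply, Pi.zero_apply] at this
    rw [hz q] at this
    exact mul_ne_zero (Units.ne_zero _) hvq this
  have hscale : w = fun x => (if b x = b q then 1 else (z (p (b x)) : ℂ)) *
      full ε v (cut ε w) x := by
    funext x
    unfold full
    by_cases h : b x = b q
    · rw [if_pos h, dif_pos h, one_mul]
      simp only [cut, Equiv.symm_apply_apply]
    · rw [if_neg h, dif_neg h]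
      by_cases hx : x = p (b x)
      · rw [← hx, hz x]
      · rw [hz x, hv0 x h hx, mul_zero, mul_zero]
  have hfz : eval (full ε v (cut ε w)) f = 0 := by
    have h2 := eval_scale S'.hf (fun j => if j = b q then 1 else (z (p j) : ℂ))
      (full ε v (cut ε w))
    have h3 : (fun x => (fun j => if j = b q then (1 : ℂ) else (z (p j) : ℂ)) (b x) *
        full ε v (cut ε w) x) = w := hscale.symm
    rw [h3, hfw] at h2
    refine (mul_eq_zero.1 h2.symm).resolve_left ?_
    refine Finset.prod_ne_zero_iff.2 fun j _ => pow_ne_zero _ ?_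
    split_ifs
    · exact one_ne_zero
    · exact Units.ne_zero _
  have hex : ∃ (g : G) (c : ℂ), ∀ a, cut ε w a = c * ((α (ε.symm a).1 g : ℂ) * cut ε v a) := by
    by_contra hcon
    obtain ⟨s, hs, h2, h3⟩ := h1 _ _ hy0 hz0 (by rw [full_cut]; exact hfv) hfz hcon
    have h4 := hc _ hs
    rw [map_mul, map_mul, eval_up, eval_up, h2, zero_mul, mul_zero, map_prod] at h4
    refine mul_ne_zero h3 (Finset.prod_ne_zero_iff.2 fun j _ => ?_) h4
    rw [map_pow, eval_X, hz (p j)]
    exact pow_ne_zero _ (mul_ne_zero (Units.ne_zero _) (hvp j))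
  obtain ⟨g, c', h2⟩ := hex
  refine ⟨fun j => if j = b q then c' else (z (p j) : ℂ) * ((α (p j) g : ℂ))⁻¹, g, fun l => ?_⟩
  by_cases hl : b l = b q
  · simp only [hl, if_true]
    have h3 := h2 (ε ⟨l, hl⟩)
    simp only [cut, Equiv.symm_apply_apply] at h3
    exact h3
  · simp only [hl, if_false]
    by_cases hlp : l = p (b l)
    · rw [← hlp, hz l]
      have h4 : (α l g : ℂ) ≠ 0 := Units.ne_zero _
      field_simp
    · rw [hz l, hv0 l hl hlp, mul_zero, mul_zero, mul_zero]

/-- tangent vectors are separated -/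
theorem tan_one (S' : Setup b α d f) (hb : Function.Surjective b) {e : S → ℕ}
    (he : ∀ j, Nat.card G + 1 ≤ e j)
    (hde : ∀ j, d j ≤ e j) (χ : G →* ℂˣ) {v u : ι → ℂ} (hfv : eval v f = 0)
    (hfu : dir v u f = 0) {c : ℂ} (hc : ∀ s, IsSec b α e χ s → dir v u s = c * eval v s)
    {p : S → ι} (hp : ∀ j, b (p j) = j) (hvp : ∀ j, v (p j) ≠ 0)
    {q : ι} (hq : q ≠ p (b q)) (hvq : v q ≠ 0)
    (hv0 : ∀ x, b x ≠ b q → x ≠ p (b x) → v x = 0) :
    ∃ τ : S → ℂ, ∀ l, u l = τ (b l) * v l := by
  obtain ⟨n, ε, _, h1⟩ := S'.slice_result hp hvp hq (by have := he (b q); omega) (hde _) hv0 χ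
  have hy0 : cut ε v ≠ 0 := by
    intro h
    have := congrFun h (ε ⟨q, rfl⟩)
    simp only [cut, Equiv.symm_apply_apply, Pi.zero_apply] at this
    exact hvq this
  have hu0 : ∀ l, b l ≠ b q → u l = u (p (b l)) / v (p (b l)) * v l := by
    intro l hl
    by_cases hlp : l = p (b l)
    · rw [← hlp, div_mul_cancel₀ _ (by rw [hlp]; exact hvp _)]
    · have h2 := hv0 l hl hlp
      rw [h2, mul_zero]
      exact S'.tan_zero hb he χ hc hp hvp hq hvq hl h2
  set T : S → ℂ := fun j => if j = b q then 0 else u (p j) / v (p j) with hT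
  have hdec : u = fun x => full ε 0 (cut ε u) x + T (b x) * v x := by
    funext x
    unfold full
    by_cases h : b x = b q
    · rw [dif_pos h, hT]
      simp only [h, if_true, zero_mul, add_zero, cut, Equiv.symm_apply_apply]
    · rw [dif_neg h, hT]
      simp only [h, if_false, Pi.zero_apply, zero_add]
      exact hu0 x h
  have hadd : ∀ (x y : ι → ℂ) (s : MvPolynomial ι ℂ),
      dir v (fun l => x l + y l) s = dir v x s + dir v y s := by
    intro x y s
    unfold dir
    rw [← Finset.sum_add_distrib]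
    refine Finset.sum_congr rfl fun i _ => ?_
    rw [mul_add]
  have hslice : dir (cut ε v) (cut ε u) (res ε v f) = 0 := by
    rw [dir_res]
    have h2 := hfu
    rw [hdec, hadd, euler S'.hf T v, hfv, mul_zero, add_zero] at h2
    exact h2
  have hex : ∃ c : ℂ, ∀ a, cut ε u a = c * cut ε v a := by
    by_contra hcon
    obtain ⟨s, hs, h2, h3⟩ := h1 _ _ hy0 (by rw [full_cut]; exact hfv) hslice hcon
    have h4 := hc _ hs
    rw [dir_mul, map_mul, eval_up, h2, zero_mul, zero_add, zero_mul, mul_zero, dir_up, map_prod]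
      at h4
    refine mul_ne_zero (Finset.prod_ne_zero_iff.2 fun j _ => ?_) h3 h4
    rw [map_pow, eval_X]
    exact pow_ne_zero _ (hvp j)
  obtain ⟨c', h2⟩ := hex
  refine ⟨fun j => if j = b q then c' else u (p j) / v (p j), fun l => ?_⟩
  by_cases hl : b l = b q
  · simp only [hl, if_true]
    have h3 := h2 (ε ⟨l, hl⟩)
    simp only [cut, Equiv.symm_apply_apply] at h3
    exact h3
  · simp only [hl, if_false]
    exact hu0 l hl

end Setup

end Pool.Agent.R920.WP
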