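import Pool.Agent.R920.WP.Setup

/-!
# Sections supported in two blocks, points with two nonzero coordinates in two blocks
-/

set_option autoImplicit false

namespace Pool.Agent.R920.WP

open MvPolynomial Pool.Agent.R920.WC Pool.Agent.R920.WQ

variable {G : Type} [Group G] {ι S : Type} [Fintype ι] [DecidableEq ι] [Fintype S] [DecidableEq S]

/-- forms of multidegree `e` on which `G` acts by the character `χ` -/
def IsSec (b : ι → S) (α : ι → G →* ℂˣ) (e : S → ℕ) (χ : G →* ℂˣ) (s : MvPolynomial ι ℂ) : Prop :=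
  MHom b e s ∧ ∀ (g : G) (x : ι → ℂ), eval (fun i => (α i g : ℂ) * x i) s = χ g * eval x s

omit [Fintype S] in
theorem IsSec.sub {b : ι → S} {α : ι → G →* ℂˣ} {e : S → ℕ} {χ : G →* ℂˣ}
    {s s' : MvPolynomial ι ℂ} (h : IsSec b α e χ s) (h' : IsSec b α e χ s') :
    IsSec b α e χ (s - s') := by
  refine ⟨fun j => (weightedHomogeneousSubmodule ℂ (ind b j) (e j)).sub_mem (h.1 j) (h'.1 j),
    fun g x => ?_⟩
  rw [map_sub, map_sub, h.2, h'.2, mul_sub]

omit [Fintype S] in
theorem IsSec.smul {b : ι → S} {α : ι → G →* ℂˣ} {e : S → ℕ} {χ : G →* ℂˣ}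
    {s : MvPolynomial ι ℂ} (h : IsSec b α e χ s) (c : ℂ) : IsSec b α e χ (C c * s) := by
  refine ⟨fun j => ?_, fun g x => ?_⟩
  · have := (isWeightedHomogeneous_C (ind b j) c).mul (h.1 j)
    rwa [zero_add] at this
  · rw [map_mul, map_mul, h.2, eval_C, eval_C]
    ring

/-- the other blocks -/
def rest (i k : S) : Finset S := (Finset.univ.erase i).erase k

theorem mem_rest {i k j : S} : j ∈ rest i k ↔ j ≠ k ∧ j ≠ i := by
  simp [rest]

/-- the numerical condition for the monomials below -/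
def Good (α : ι → G →* ℂˣ) (e : S → ℕ) (χ : G →* ℂˣ) (p : S → ι) (i k : S) (x y l : ι)
    (β u v : ℕ) : Prop :=
  u + v = e i ∧ ∀ g, χ g = α x g ^ u * α y g ^ v *
    (α l g ^ β * α (p k) g ^ (e k - β) * ∏ j ∈ rest i k, α (p j) g ^ e j)

/-- a monomial supported in two given blocks and a choice of coordinates in the others -/
noncomputable def mono (e : S → ℕ) (p : S → ι) (i k : S) (x y l : ι) (β u v : ℕ) :
    MvPolynomial ι ℂ :=
  X x ^ u * X y ^ v * (X l ^ β * X (p k) ^ (e k - β) * ∏ j ∈ rest i k, X (p j) ^ e j)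

omit [Fintype ι] [DecidableEq ι] in
theorem eval_mono (e : S → ℕ) (p : S → ι) (i k : S) (x y l : ι) (β u v : ℕ) (w : ι → ℂ) :
    eval w (mono e p i k x y l β u v) = w x ^ u * w y ^ v *
      (w l ^ β * w (p k) ^ (e k - β) * ∏ j ∈ rest i k, w (p j) ^ e j) := by
  simp [mono, map_prod]

omit [Fintype ι] [DecidableEq ι] in
theorem Good.isSec {b : ι → S} {α : ι → G →* ℂˣ} {e : S → ℕ} {χ : G →* ℂˣ} {p : S → ι}
    {i k : S} {x y l : ι} {β u v : ℕ} (h : Good α e χ p i k x y l β u v)
    (hp : ∀ j, b (p j) = j) (hx : b x = i) (hy : b y = i) (hl : b l = k) (hik : i ≠ k)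
    (hβ : β ≤ e k) : IsSec b α e χ (mono e p i k x y l β u v) := by
  refine ⟨fun j => ?_, fun g w => ?_⟩
  · have h1 : IsWeightedHomogeneous (ind b j) (mono e p i k x y l β u v)
        (u • ind b j x + v • ind b j y + (β • ind b j l + (e k - β) • ind b j (p k) +
          ∑ j' ∈ rest i k, e j' • ind b j (p j'))) :=
      (((isWeightedHomogeneous_X ℂ _ x).pow u).mul ((isWeightedHomogeneous_X ℂ _ y).pow v)).mul
        ((((isWeightedHomogeneous_X ℂ _ l).pow β).mul
          ((isWeightedHomogeneous_X ℂ _ (p k)).pow (e k - β))).mul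
          (IsWeightedHomogeneous.prod _ _ _ fun j' _ =>
            (isWeightedHomogeneous_X ℂ _ (p j')).pow (e j')))
    convert h1 using 1
    simp only [ind, hx, hy, hl, hp, smul_eq_mul, mul_ite, mul_one, mul_zero]
    by_cases hji : i = j
    · subst hji
      rw [if_pos rfl, if_pos rfl, if_neg hik.symm, if_neg hik.symm, Finset.sum_eq_zero]
      · have := h.1
        omega
      · intro j' hj'
        rw [if_neg (mem_rest.1 hj').2]
    · by_cases hjk : k = j
      · subst hjk
        rw [if_neg hji, if_neg hji, if_pos rfl, if_pos rfl, Finset.sum_eq_zero]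
        · omega
        · intro j' hj'
          rw [if_neg (mem_rest.1 hj').1]
      · rw [if_neg hji, if_neg hji, if_neg hjk, if_neg hjk, Finset.sum_eq_single j]
        · simp
        · intro j' _ hj'
          rw [if_neg hj']
        · intro h2
          exact absurd (mem_rest.2 ⟨Ne.symm hjk, Ne.symm hji⟩) h2
  · rw [eval_mono, eval_mono, h.2 g]
    push_cast
    simp only [mul_pow, Finset.prod_mul_distrib]
    ring

omit [Fintype ι] [DecidableEq ι] in
theorem pow_card [Finite G] (γ : G →* ℂˣ) (g : G) : γ g ^ Nat.card G = 1 := by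
  rw [← map_pow, pow_card_eq_one', map_one]

namespace Setup

variable {b : ι → S} {α : ι → G →* ℂˣ} {d : S → ℕ} {f : MvPolynomial ι ℂ} [Finite G]

theorem exists_good (S' : Setup b α d f) (hb : Function.Surjective b) {e : S → ℕ}
    (χ : G →* ℂˣ) (p : S → ι) {i k : S} {x y : ι} (l : ι) (hxy : x ≠ y) (hx : b x = i)
    (hy : b y = i) (he : Nat.card G ≤ e i) (β : ℕ) :
    ∃ u v, v < Nat.card G ∧ Good α e χ p i k x y l β u v := by
  obtain ⟨u, v, h1, h2, h3⟩ := S'.fill hb hxy (hx.trans hy.symm) he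
    (χ * (α l ^ β * α (p k) ^ (e k - β) * ∏ j ∈ rest i k, α (p j) ^ e j)⁻¹)
  refine ⟨u, v, h2, h1, fun g => ?_⟩
  rw [← h3 g]
  simp only [MonoidHom.mul_apply, MonoidHom.inv_apply, MonoidHom.pow_apply,
    MonoidHom.finsetProd_apply]
  rw [inv_mul_cancel_right]

/-- there are no base points -/
theorem bpf (S' : Setup b α d f) (hb : Function.Surjective b) (hS : ∀ i : S, ∃ k, k ≠ i)
    {e : S → ℕ} (he : ∀ j, Nat.card G ≤ e j) (χ : G →* ℂˣ) {v : ι → ℂ} (hv : Rel b v)
    (hfv : eval v f = 0) : ∃ s, IsSec b α e χ s ∧ eval v s ≠ 0 := by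
  choose p hp hvp using hv
  obtain ⟨x, hx, hvx⟩ : ∃ x, x ≠ p (b x) ∧ v x ≠ 0 := by
    by_contra hcon
    push Not at hcon
    exact S'.eval_ne hp hvp hcon hfv
  obtain ⟨k, hk⟩ := hS (b x)
  obtain ⟨u, n, _, h⟩ := S'.exists_good hb χ p (k := k) (p k) hx rfl (hp (b x)) (he _) 0
  refine ⟨_, h.isSec hp rfl (hp _) (hp k) hk.symm (Nat.zero_le _), ?_⟩
  rw [eval_mono]
  exact mul_ne_zero (mul_ne_zero (pow_ne_zero _ hvx) (pow_ne_zero _ (hvp _)))
    (mul_ne_zero (mul_ne_zero (pow_ne_zero _ (hvp k)) (pow_ne_zero _ (hvp k)))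
      (Finset.prod_ne_zero_iff.2 fun j _ => pow_ne_zero _ (hvp j)))

/-- points which are not separated have the same nonzero coordinates -/
theorem supp (S' : Setup b α d f) (hb : Function.Surjective b) (hS : ∀ i : S, ∃ k, k ≠ i)
    {e : S → ℕ} (he : ∀ j, Nat.card G + 1 ≤ e j) (χ : G →* ℂˣ) {v w : ι → ℂ} (hw : Rel b w)
    (hfw : eval w f = 0) {c : ℂ} (hc : ∀ s, IsSec b α e χ s → eval w s = c * eval v s)
    {l : ι} (hwl : w l ≠ 0) (hvl : v l = 0) : False := by
  classical
  have he' : ∀ j, Nat.card G ≤ e j := fun j => by have := he j; omega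
  have hgpos : 0 < Nat.card G := Nat.card_pos
  choose p0 hp0 hwp0 using hw
  set p : S → ι := Function.update p0 (b l) l with hpdef
  have hp : ∀ j, b (p j) = j := by
    intro j
    by_cases hj : j = b l
    · subst hj; rw [hpdef, Function.update_self]
    · rw [hpdef, Function.update_of_ne hj, hp0 j]
  have hwp : ∀ j, w (p j) ≠ 0 := by
    intro j
    by_cases hj : j = b l
    · subst hj; rw [hpdef, Function.update_self]; exact hwl
    · rw [hpdef, Function.update_of_ne hj]; exact hwp0 j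
  have hpl : p (b l) = l := by rw [hpdef, Function.update_self]
  obtain ⟨x, hx, hwx⟩ : ∃ x, x ≠ p (b x) ∧ w x ≠ 0 := by
    by_contra hcon
    push Not at hcon
    exact S'.eval_ne hp hwp hcon hfw
  by_cases hbx : b x = b l
  · -- the two coordinates are in the block of `l`
    have hxl : x ≠ l := by
      rw [hbx, hpl] at hx
      exact hx
    obtain ⟨k, hk⟩ := hS (b l)
    obtain ⟨u, n, hn, h⟩ := S'.exists_good hb χ p (k := k) (p k) hxl hbx rfl (he' _) 0
    have hne : ∀ u n : ℕ, w x ^ u * w l ^ n * (w (p k) ^ 0 * w (p k) ^ (e k - 0) *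
        ∏ j ∈ rest (b l) k, w (p j) ^ e j) ≠ 0 := fun u n =>
      mul_ne_zero (mul_ne_zero (pow_ne_zero _ hwx) (pow_ne_zero _ hwl))
        (mul_ne_zero (mul_ne_zero (pow_ne_zero _ (hwp k)) (pow_ne_zero _ (hwp k)))
          (Finset.prod_ne_zero_iff.2 fun j _ => pow_ne_zero _ (hwp j)))
    have key : ∀ u n : ℕ, n ≠ 0 → Good α e χ p (b l) k x l (p k) 0 u n → False := by
      intro u n hn0 h'
      have h1 := hc _ (h'.isSec hp hbx rfl (hp k) hk.symm (Nat.zero_le _))
      rw [eval_mono, eval_mono, hvl, zero_pow hn0, mul_zero, zero_mul, mul_zero] at h1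
      exact hne _ _ h1
    rcases Nat.eq_zero_or_pos n with h0 | h0
    · subst h0
      refine key (u - Nat.card G) (Nat.card G) hgpos.ne' ⟨?_, fun g => ?_⟩
      · have h1 := h.1
        have h2 := he' (b l)
        omega
      · rw [h.2 g]
        have h1 : Nat.card G ≤ u := by
          have h1 := h.1
          have h2 := he' (b l)
          omega
        conv_lhs => rw [← Nat.sub_add_cancel h1, pow_add, pow_card, mul_one, pow_zero, mul_one]
        rw [pow_card, mul_one]
    · exact key u n h0.ne' h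
  · -- a pair of coordinates in another block
    obtain ⟨u, n, hn, h⟩ := S'.exists_good hb χ p (k := b l) l hx rfl (hp (b x)) (he' _) 1
    have hel : 1 ≤ e (b l) := by
      have := he (b l)
      omega
    have h1 := hc _ (h.isSec hp rfl (hp _) rfl hbx hel)
    rw [eval_mono, eval_mono, hvl, pow_one, pow_one, zero_mul, zero_mul, mul_zero, mul_zero] at h1
    exact mul_ne_zero (mul_ne_zero (pow_ne_zero _ hwx) (pow_ne_zero _ (hwp _)))
      (mul_ne_zero (mul_ne_zero hwl (pow_ne_zero _ (hwp (b l))))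
        (Finset.prod_ne_zero_iff.2 fun j _ => pow_ne_zero _ (hwp j))) h1

/-- points with two nonzero coordinates in two blocks are separated -/
theorem pts_two (S' : Setup b α d f) (hb : Function.Surjective b)
    {e : S → ℕ} (he : ∀ j, Nat.card G + 1 ≤ e j) (χ : G →* ℂˣ) {v w : ι → ℂ}
    {c : ℂ} (hc0 : c ≠ 0) (hc : ∀ s, IsSec b α e χ s → eval w s = c * eval v s)
    {z : ι → ℂˣ} (hz : ∀ l, w l = (z l : ℂ) * v l)
    {p : S → ι} (hp : ∀ j, b (p j) = j) (hvp : ∀ j, v (p j) ≠ 0)
    {q r : ι} (hq : q ≠ p (b q)) (hr : r ≠ p (b r)) (hqr : b q ≠ b r) (hvq : v q ≠ 0)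
    (hvr : v r ≠ 0) :
    ∃ (t : S → ℂˣ) (g : G), ∀ l, w l = (t (b l) : ℂ) * ((α l g : ℂ) * v l) := by
  have he' : ∀ j, Nat.card G ≤ e j := fun j => by have := he j; omega
  -- values of the good monomials
  have hval : ∀ (i k : S) (x y l : ι) (β u n : ℕ), Good α e χ p i k x y l β u n → b x = i →
      b y = i → b l = k → i ≠ k → β ≤ e k → v x ≠ 0 → v y ≠ 0 → v l ≠ 0 →
      z x ^ u * z y ^ n * (z l ^ β * z (p k) ^ (e k - β) * ∏ j ∈ rest i k, z (p j) ^ e j)
        = Units.mk0 c hc0 := by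
    intro i k x y l β u n h hx hy hl hik hβ hvx hvy hvl
    have h1 := hc _ (h.isSec hp hx hy hl hik hβ)
    rw [eval_mono, eval_mono, hz x, hz y, hz l, hz (p k)] at h1
    simp only [hz, mul_pow, Finset.prod_mul_distrib] at h1
    ext
    push_cast
    rw [Units.val_mk0]
    have hne : v x ^ u * v y ^ n * (v l ^ β * v (p k) ^ (e k - β) *
        ∏ j ∈ rest i k, v (p j) ^ e j) ≠ 0 :=
      mul_ne_zero (mul_ne_zero (pow_ne_zero _ hvx) (pow_ne_zero _ hvy))
        (mul_ne_zero (mul_ne_zero (pow_ne_zero _ hvl) (pow_ne_zero _ (hvp k)))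
          (Finset.prod_ne_zero_iff.2 fun j _ => pow_ne_zero _ (hvp j)))
    refine mul_right_cancel₀ hne ?_
    rw [← h1]
    ring
  -- the root of unity
  have hroot : z (p (b q)) ^ (1 * Nat.card G) = z q ^ (1 * Nat.card G) := by
    obtain ⟨u, n, _, h⟩ := S'.exists_good hb χ p (k := b q) q hr.symm (hp (b r)) rfl (he' _) 0
    have h' : Good α e χ p (b r) (b q) (p (b r)) r q (Nat.card G) u n := by
      refine ⟨h.1, fun g => ?_⟩
      rw [h.2 g, pow_card, pow_zero, Nat.sub_zero]
      congr 3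
      conv_lhs => rw [← Nat.sub_add_cancel (he' (b q)), pow_add, pow_card, mul_one]
    have h1 := hval _ _ _ _ _ _ _ _ h (hp _) rfl rfl hqr.symm (Nat.zero_le _) (hvp _) hvr hvq
    have h2 := hval _ _ _ _ _ _ _ _ h' (hp _) rfl rfl hqr.symm (he' _) (hvp _) hvr hvq
    have h3 := mul_left_cancel (h1.trans h2.symm)
    have h4 := mul_right_cancel h3
    rw [pow_zero, one_mul, Nat.sub_zero] at h4
    have h5 : z (p (b q)) ^ e (b q) =
        z (p (b q)) ^ Nat.card G * z (p (b q)) ^ (e (b q) - Nat.card G) := by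
      rw [← pow_add, Nat.add_sub_cancel' (he' (b q))]
    rw [h5] at h4
    rw [one_mul]
    exact mul_right_cancel h4
  obtain ⟨t0, g, ht1, ht2⟩ := (S'.free hb hq.symm (hp (b q))).exists_values one_pos
    (z (p (b q))) (z q) hroot
  rw [pow_one] at ht1 ht2
  set ρ : ι → ℂˣ := fun l => z l * (α l g)⁻¹ with hρ
  have hρ' : ∀ l, z l = ρ l * α l g := fun l => by rw [hρ]; simp
  have hρq : ρ (p (b q)) = ρ q := by
    rw [hρ]
    simp only
    rw [← ht1, ← ht2, mul_assoc, mul_assoc, mul_inv_cancel, mul_inv_cancel]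
  -- one pair gives the other blocks
  have hstep : ∀ (i : S) (y : ι), b y = i → y ≠ p i → v y ≠ 0 → ρ (p i) = ρ y →
      ∀ l, b l ≠ i → v l ≠ 0 → ρ l = ρ (p (b l)) := by
    intro i y hy hyp hvy hρy l hli hvl
    obtain ⟨u0, n0, _, h0⟩ := S'.exists_good hb χ p (k := b l) l hyp.symm (hp i) hy (he' _) 0
    obtain ⟨u1, n1, _, h1⟩ := S'.exists_good hb χ p (k := b l) l hyp.symm (hp i) hy (he' _) 1
    have hel : 1 ≤ e (b l) := by
      have := he (b l)
      omega
    have key : ∀ β u n, β ≤ e (b l) → Good α e χ p i (b l) (p i) y l β u n →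
        ρ (p i) ^ e i * (ρ l ^ β * ρ (p (b l)) ^ (e (b l) - β) *
          ∏ j ∈ rest i (b l), ρ (p j) ^ e j) * χ g = Units.mk0 c hc0 := by
      intro β u n hβ h
      rw [← hval _ _ _ _ _ _ _ _ h (hp i) hy rfl (Ne.symm hli) hβ (hvp i) hvy hvl, h.2 g]
      rw [hρ' (p i), hρ' y, hρ' l, hρ' (p (b l)), ← hρy, ← h.1]
      have h2 : ∏ j ∈ rest i (b l), z (p j) ^ e j = (∏ j ∈ rest i (b l), ρ (p j) ^ e j) *
          ∏ j ∈ rest i (b l), α (p j) g ^ e j := by
        rw [← Finset.prod_mul_distrib]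
        refine Finset.prod_congr rfl fun j _ => ?_
        rw [hρ' (p j), mul_pow]
      rw [h2]
      simp only [mul_pow, pow_add]
      ac_rfl
    have e0 := key 0 u0 n0 (Nat.zero_le _) h0
    have e1 := key 1 u1 n1 hel h1
    have e2 := mul_left_cancel (mul_right_cancel (e0.trans e1.symm))
    have e3 := mul_right_cancel e2
    rw [pow_zero, one_mul, Nat.sub_zero, pow_one] at e3
    have h5 : ρ (p (b l)) ^ e (b l) = ρ (p (b l)) * ρ (p (b l)) ^ (e (b l) - 1) := by
      rw [← pow_succ', Nat.sub_add_cancel hel]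
    rw [h5] at e3
    exact (mul_right_cancel e3).symm
  have hall : ∀ l, v l ≠ 0 → ρ l = ρ (p (b l)) := by
    intro l hvl
    by_cases hl : b l = b q
    · refine hstep (b r) r rfl hr hvr ?_ l ?_ hvl
      · exact (hstep (b q) q rfl hq hvq hρq r hqr.symm hvr).symm
      · rw [hl]
        exact hqr
    · exact hstep (b q) q rfl hq hvq hρq l hl hvl
  refine ⟨fun j => ρ (p j), g, fun l => ?_⟩
  by_cases hl : v l = 0
  · rw [hz l, hl, mul_zero, mul_zero, mul_zero]
  · rw [hz l, hρ' l, hall l hl]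
    push_cast
    ring

end Setup

end Pool.Agent.R920.WP
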