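import Pool.Agent.R920.WQ.Grp
import Pool.Agent.R920.WC.Poly
import Pool.Agent.H552R3.Tsen.Zero

/-!
# Free diagonal actions on hypersurfaces in products of projective spaces

The variables are divided into blocks by a map `b`; a multihomogeneous polynomial has a degree in
each block.
-/

set_option autoImplicit false

namespace Pool.Agent.R920.WP

open MvPolynomial Pool.Agent.R920.WC Pool.Agent.R920.WQ

variable {G : Type} [Group G] {ι S : Type} [Fintype ι] [DecidableEq ι] [Fintype S] [DecidableEq S]

/-- the weights which count the variables of the block `j` -/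
def ind (b : ι → S) (j : S) : ι → ℕ := fun x => if b x = j then 1 else 0

/-- multihomogeneous polynomials of multidegree `m` -/
def MHom (b : ι → S) (m : S → ℕ) (s : MvPolynomial ι ℂ) : Prop :=
  ∀ j, IsWeightedHomogeneous (ind b j) s (m j)

/-- points with a nonzero coordinate in each block -/
def Rel (b : ι → S) (v : ι → ℂ) : Prop := ∀ j, ∃ x, b x = j ∧ v x ≠ 0

omit [DecidableEq ι] in
theorem eval_scale {b : ι → S} {m : S → ℕ} {s : MvPolynomial ι ℂ} (hs : MHom b m s)
    (t : S → ℂ) (v : ι → ℂ) :
    eval (fun x => t (b x) * v x) s = (∏ j, t j ^ m j) * eval v s := by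
  rw [eval_eq', eval_eq', Finset.mul_sum]
  refine Finset.sum_congr rfl (fun n hn => ?_)
  have h1 : ∏ x, t (b x) ^ n x = ∏ j, t j ^ m j := by
    have h2 : ∀ x, t (b x) ^ n x = ∏ j, t j ^ (n x * ind b j x) := by
      intro x
      rw [Finset.prod_eq_single (b x)]
      · simp [ind]
      · intro j _ hj
        simp [ind, hj.symm]
      · intro h
        exact absurd (Finset.mem_univ _) h
    rw [Finset.prod_congr rfl (fun x _ => h2 x), Finset.prod_comm]
    refine Finset.prod_congr rfl fun j _ => ?_
    have hw := hs j (mem_support_iff.mp hn)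
    rw [weight_eq] at hw
    rw [← hw, ← Finset.prod_pow_eq_pow_sum]
  simp only [mul_pow, Finset.prod_mul_distrib]
  rw [h1]
  ring

omit [DecidableEq ι] [Fintype S] in
theorem eval_block_zero {b : ι → S} {m : S → ℕ} {s : MvPolynomial ι ℂ} (hs : MHom b m s)
    {i : S} (hi : 0 < m i) {v : ι → ℂ} (hv : ∀ x, b x = i → v x = 0) : eval v s = 0 := by
  by_contra h
  obtain ⟨n, hn, hn0⟩ := exists_monomial s v h
  have hw := hs i (mem_support_iff.mp hn)
  rw [weight_eq, Finset.sum_eq_zero] at hw
  · omega
  · intro x _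
    by_cases hx : b x = i
    · rw [hn0 x (hv x hx), zero_mul]
    · simp [ind, hx]

/-- A hypersurface with a free action of a nontrivial finite diagonal group. -/
structure Setup (b : ι → S) (α : ι → G →* ℂˣ) (d : S → ℕ) (f : MvPolynomial ι ℂ) : Prop where
  hd : ∀ j, 0 < d j
  hf : MHom b d f
  hinv : ∀ g : G, ∃ c : ℂ, ∀ x : ι → ℂ, eval (fun i => (α i g : ℂ) * x i) f = c * eval x f
  hfree : ∀ v : ι → ℂ, Rel b v → eval v f = 0 → ∀ (g : G) (t : S → ℂ),
    (∀ x, (α x g : ℂ) * v x = t (b x) * v x) → g = 1
  hG : Nontrivial G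

/-- the coordinate point given by one variable of each block -/
def pt (b : ι → S) (p : S → ι) : ι → ℂ := fun x => if x = p (b x) then 1 else 0

namespace Setup

variable {b : ι → S} {α : ι → G →* ℂˣ} {d : S → ℕ} {f : MvPolynomial ι ℂ}

omit [Fintype S] [DecidableEq S] in
theorem pt_self {p : S → ι} (hp : ∀ j, b (p j) = j) (j : S) : pt b p (p j) = 1 := by
  simp [pt, hp j]

/-- coordinate points do not lie on the hypersurface -/
theorem eval_pt (S' : Setup b α d f) {p : S → ι} (hp : ∀ j, b (p j) = j) :
    eval (pt b p) f ≠ 0 := by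
  intro h
  have := S'.hG
  obtain ⟨g, hg⟩ := exists_ne (1 : G)
  refine hg (S'.hfree (pt b p) (fun j => ⟨p j, hp j, by rw [pt_self hp]; exact one_ne_zero⟩) h g
    (fun j => (α (p j) g : ℂ)) ?_)
  intro x
  by_cases hx : x = p (b x)
  · rw [← hx]
  · simp [pt, hx]

/-- points with one nonzero coordinate in each block do not lie on the hypersurface -/
theorem eval_ne (S' : Setup b α d f) {p : S → ι} (hp : ∀ j, b (p j) = j) {v : ι → ℂ}
    (hv : ∀ j, v (p j) ≠ 0) (hv0 : ∀ x, x ≠ p (b x) → v x = 0) : eval v f ≠ 0 := by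
  have h1 : v = fun x => v (p (b x)) * pt b p x := by
    funext x
    by_cases hx : x = p (b x)
    · rw [pt, if_pos hx, mul_one, ← hx]
    · rw [pt, if_neg hx, mul_zero, hv0 x hx]
  rw [h1, eval_scale S'.hf (fun j => v (p j))]
  exact mul_ne_zero (Finset.prod_ne_zero_iff.2 fun j _ => pow_ne_zero _ (hv j)) (S'.eval_pt hp)

/-- the character of the equation -/
theorem char_eq (S' : Setup b α d f) {p : S → ι} (hp : ∀ j, b (p j) = j) {g : G} {c : ℂ}
    (hc : ∀ x : ι → ℂ, eval (fun i => (α i g : ℂ) * x i) f = c * eval x f) :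
    ∏ j, (α (p j) g : ℂ) ^ d j = c := by
  have h1 : (fun i => (α i g : ℂ) * pt b p i) = fun x => (α (p (b x)) g : ℂ) * pt b p x := by
    funext x
    by_cases hx : x = p (b x)
    · rw [← hx]
    · simp [pt, hx]
  have h2 := hc (pt b p)
  rw [h1, eval_scale S'.hf (fun j => (α (p j) g : ℂ))] at h2
  exact mul_right_cancel₀ (S'.eval_pt hp) h2

/-- a point with exactly two nonzero coordinates in one block and one in the others -/
theorem exists_zero (S' : Setup b α d f) {p : S → ι} (hp : ∀ j, b (p j) = j) {y : ι}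
    (hy : y ≠ p (b y)) : ∃ v : ι → ℂ, v y ≠ 0 ∧ (∀ j, v (p j) ≠ 0) ∧
      (∀ x, x ≠ y → x ≠ p (b x) → v x = 0) ∧ eval v f = 0 := by
  classical
  set i := b y with hi
  have hyp : ∀ j, p j ≠ y := by
    intro j hj
    apply hy
    rw [hi, ← hj, hp j]
  let res : MvPolynomial ι ℂ →ₐ[ℂ] MvPolynomial (Fin 2) ℂ :=
    aeval (fun x => if x = p i then X 0 else if x = y then X 1 else if x = p (b x) then 1 else 0)
  let ext : (Fin 2 → ℂ) → ι → ℂ := fun u x =>
    if x = p i then u 0 else if x = y then u 1 else if x = p (b x) then 1 else 0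
  have hres : ∀ (u : Fin 2 → ℂ) (q : MvPolynomial ι ℂ), eval u (res q) = eval (ext u) q := by
    intro u q
    have h1 : ((aeval u : MvPolynomial (Fin 2) ℂ →ₐ[ℂ] ℂ).comp res) = aeval (ext u) := by
      apply MvPolynomial.algHom_ext
      intro j
      simp only [AlgHom.comp_apply, res, ext, aeval_X]
      split_ifs <;> simp
    have h2 := congrArg (fun φ => φ q) (congrArg DFunLike.coe h1)
    simpa [coe_aeval_eq_eval] using h2
  have hext0 : ∀ u : Fin 2 → ℂ, u 0 = 0 → u 1 = 0 → eval (ext u) f = 0 := by
    intro u h0 h1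
    refine eval_block_zero S'.hf (S'.hd i) ?_
    intro x hx
    simp only [ext]
    split_ifs with h2 h3 h4
    · exact h0
    · exact h1
    · rw [hx] at h4
      exact absurd h4 h2
    · rfl
  obtain ⟨u, hu, hu0⟩ := Pool.Agent.H552R3.Tsen.exists_common_zero
    (fun _ : Fin 1 => res f) (fun _ => by
      rw [hres]
      exact hext0 0 rfl rfl) (by simp)
  have h0 := hu0 0
  rw [hres] at h0
  have e1 : ext u (p i) = u 0 := by simp [ext]
  have e2 : ext u y = u 1 := by simp [ext, (hyp i).symm]
  have e3 : ∀ j, j ≠ i → ext u (p j) = 1 := by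
    intro j hj
    have h1 : p j ≠ p i := by
      intro h
      apply hj
      rw [← hp j, h, hp i]
    simp [ext, h1, hyp j, hp j]
  have e4 : ∀ x, x ≠ y → x ≠ p (b x) → ext u x = 0 := by
    intro x h1 h2
    have h3 : x ≠ p i := by
      intro h
      apply h2
      rw [h, hp i]
    simp [ext, h1, h2, h3]
  have hu0' : u 0 ≠ 0 := by
    intro h
    have h1 : u 1 ≠ 0 := by
      intro h1
      refine hu (funext fun l => ?_)
      fin_cases l
      · exact h
      · exact h1
    -- the support is another choice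
    refine S'.eval_ne (p := Function.update p i y) ?_ (v := ext u) ?_ ?_ h0
    · intro j
      by_cases hj : j = i
      · subst hj; rw [Function.update_self]
      · rw [Function.update_of_ne hj, hp j]
    · intro j
      by_cases hj : j = i
      · subst hj; rw [Function.update_self, e2]; exact h1
      · rw [Function.update_of_ne hj, e3 j hj]; exact one_ne_zero
    · intro x hx
      by_cases hxy : x = y
      · exfalso
        apply hx
        rw [hxy, ← hi, Function.update_self]
      · by_cases hx2 : x = p (b x)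
        · by_cases hbx : b x = i
          · rw [hbx] at hx2
            rw [hx2, e1, h]
          · exfalso
            apply hx
            rw [Function.update_of_ne hbx]
            exact hx2
        · exact e4 x hxy hx2
  have hu1' : u 1 ≠ 0 := by
    intro h
    refine S'.eval_ne hp (v := ext u) ?_ ?_ h0
    · intro j
      by_cases hj : j = i
      · rw [hj, e1]; exact hu0'
      · rw [e3 j hj]; exact one_ne_zero
    · intro x hx
      by_cases hxy : x = y
      · rw [hxy, e2, h]
      · exact e4 x hxy hx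
  refine ⟨ext u, by rw [e2]; exact hu1', ?_, e4, h0⟩
  intro j
  by_cases hj : j = i
  · rw [hj, e1]; exact hu0'
  · rw [e3 j hj]; exact one_ne_zero

/-- two characters of one block are jointly injective with the scalars -/
theorem free (S' : Setup b α d f) (hb : Function.Surjective b) {x y : ι} (hxy : x ≠ y)
    (hbxy : b x = b y) : Free 1 1 (α x) (α y) := by
  classical
  obtain ⟨p0, hp0⟩ := hb.hasRightInverse
  set p : S → ι := Function.update p0 (b x) x with hpdef
  have hp : ∀ j, b (p j) = j := by
    intro j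
    by_cases hj : j = b x
    · subst hj; rw [hpdef, Function.update_self]
    · rw [hpdef, Function.update_of_ne hj, hp0 j]
  have hpx : p (b x) = x := by rw [hpdef, Function.update_self]
  have hy : y ≠ p (b y) := by
    rw [← hbxy, hpx]
    exact hxy.symm
  obtain ⟨v, hv1, hv2, hv3, hv4⟩ := S'.exists_zero hp hy
  intro t h h1 h2
  have hxh : (α x h : ℂ) = (α y h : ℂ) := by
    have h3 : α x h = α y h := mul_left_cancel (h1.trans h2.symm)
    rw [h3]
  have h3 : h = 1 := by
    refine S'.hfree v (fun j => ⟨p j, hp j, hv2 j⟩) hv4 h (fun j => (α (p j) h : ℂ)) ?_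
    intro l
    by_cases hl : l = p (b l)
    · rw [← hl]
    · by_cases hly : l = y
      · subst hly
        rw [← hbxy, hpx, hxh]
      · rw [hv3 l hly hl, mul_zero, mul_zero]
  subst h3
  refine ⟨?_, rfl⟩
  rw [map_one, mul_one, pow_one] at h1
  exact h1

variable [Finite G]

/-- the order of the group divides the degrees -/
theorem dvd (S' : Setup b α d f) (hb : Function.Surjective b) {x y : ι} (hxy : x ≠ y)
    (hbxy : b x = b y) : Nat.card G ∣ d (b x) := by
  classical
  obtain ⟨p0, hp0⟩ := hb.hasRightInverse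
  set i := b x with hi
  have hp1 : ∀ z : ι, b z = i → ∀ j, b (Function.update p0 i z j) = j := by
    intro z hz j
    by_cases hj : j = i
    · subst hj; rw [Function.update_self, hz]
    · rw [Function.update_of_ne hj, hp0 j]
  have h1 := (S'.free hb hxy hbxy).dvd one_pos (s := d i) (r := d i) rfl (by
    intro g
    obtain ⟨c, hc⟩ := S'.hinv g
    have e1 := S'.char_eq (hp1 x rfl) hc
    have e2 := S'.char_eq (hp1 y hbxy.symm) hc
    rw [← Finset.mul_prod_erase _ _ (Finset.mem_univ i), Function.update_self] at e1 e2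
    have e3 : ∀ z, ∏ j ∈ Finset.univ.erase i, ((α (Function.update p0 i z j) g : ℂˣ) : ℂ) ^ d j
        = ∏ j ∈ Finset.univ.erase i, ((α (p0 j) g : ℂˣ) : ℂ) ^ d j := by
      intro z
      refine Finset.prod_congr rfl fun j hj => ?_
      rw [Function.update_of_ne (Finset.ne_of_mem_erase hj)]
    rw [e3] at e1 e2
    have e4 : ∏ j ∈ Finset.univ.erase i, ((α (p0 j) g : ℂˣ) : ℂ) ^ d j ≠ 0 :=
      Finset.prod_ne_zero_iff.2 fun j _ => pow_ne_zero _ (Units.ne_zero _)
    ext
    rw [Units.val_pow_eq_pow_val, Units.val_pow_eq_pow_val]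
    exact mul_right_cancel₀ e4 (e1.trans e2.symm))
  rwa [one_mul] at h1

/-- a product of two variables of one block with given degree and character -/
theorem fill (S' : Setup b α d f) (hb : Function.Surjective b) {x y : ι} (hxy : x ≠ y)
    (hbxy : b x = b y) {n : ℕ} (hn : Nat.card G ≤ n) (ψ : G →* ℂˣ) :
    ∃ u v : ℕ, u + v = n ∧ v < Nat.card G ∧ ∀ g, ψ g = α x g ^ u * α y g ^ v := by
  obtain ⟨v, hv, u, h1, h2⟩ := (S'.free hb hxy hbxy).exists_int one_pos (n : ℤ) ψ
  rw [one_mul] at hv
  have hu : u = ((n - v : ℕ) : ℤ) := by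
    rw [Nat.cast_sub (by omega)]
    push_cast at h1
    linarith
  refine ⟨n - v, v, by omega, hv, fun g => ?_⟩
  rw [h2 g, hu, zpow_natCast]

end Setup

end Pool.Agent.R920.WP
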