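import Pool.Agent.R920.WP.Tan
import Pool.Agent.Results.MP_e09b14_ag.SmallDiagonalQuotients

/-!
# Points with one nonzero coordinate in all blocks but one
-/

set_option autoImplicit false

namespace Pool.Agent.R920.WP

open MvPolynomial Pool.Agent.R920.WC Pool.Agent.R920.WQ

variable {G : Type} [Group G] {ι S : Type} [Fintype ι] [DecidableEq ι] [Fintype S] [DecidableEq S]

section slice

variable {b : ι → S} {i : S} {N : ℕ} (ε : {x // b x = i} ≃ Fin (N + 1)) (v : ι → ℂ)

/-- replace the coordinates of the block `i` -/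
def full (y : Fin (N + 1) → ℂ) : ι → ℂ := fun x => if h : b x = i then y (ε ⟨x, h⟩) else v x

/-- the coordinates of the block `i` -/
def cut (w : ι → ℂ) : Fin (N + 1) → ℂ := fun a => w (ε.symm a).1

/-- restriction to the slice through `v` -/
noncomputable def res : MvPolynomial ι ℂ →ₐ[ℂ] MvPolynomial (Fin (N + 1)) ℂ :=
  aeval (fun x => if h : b x = i then X (ε ⟨x, h⟩) else C (v x))

/-- polynomials in the variables of the block `i` -/
noncomputable def up : MvPolynomial (Fin (N + 1)) ℂ →ₐ[ℂ] MvPolynomial ι ℂ :=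
  aeval (fun a => X (ε.symm a).1)

omit [Fintype ι] [DecidableEq ι] [Fintype S] in
theorem full_cut (w : ι → ℂ) : full ε w (cut ε w) = w := by
  funext x
  unfold full cut
  split_ifs with h
  · rw [Equiv.symm_apply_apply]
  · rfl

omit [Fintype ι] [DecidableEq ι] [Fintype S] in
theorem cut_full (y : Fin (N + 1) → ℂ) : cut ε (full ε v y) = y := by
  funext a
  have h := (ε.symm a).2
  simp [full, cut, h]

omit [Fintype ι] [DecidableEq ι] [Fintype S] in
theorem eval_res (y : Fin (N + 1) → ℂ) (s : MvPolynomial ι ℂ) :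
    eval y (res ε v s) = eval (full ε v y) s := by
  have h1 : ((aeval y : MvPolynomial (Fin (N + 1)) ℂ →ₐ[ℂ] ℂ).comp (res ε v)) =
      aeval (full ε v y) := by
    apply MvPolynomial.algHom_ext
    intro j
    simp only [AlgHom.comp_apply, res, full, aeval_X]
    split_ifs <;> simp
  have h2 := congrArg (fun φ => φ s) (congrArg DFunLike.coe h1)
  simpa [coe_aeval_eq_eval] using h2

omit [Fintype ι] [DecidableEq ι] [Fintype S] [DecidableEq S] in
theorem eval_up (w : ι → ℂ) (s : MvPolynomial (Fin (N + 1)) ℂ) :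
    eval w (up ε s) = eval (cut ε w) s := by
  have h1 : ((aeval w : MvPolynomial ι ℂ →ₐ[ℂ] ℂ).comp (up ε)) = aeval (cut ε w) := by
    apply MvPolynomial.algHom_ext
    intro j
    simp [up, cut]
  have h2 := congrArg (fun φ => φ s) (congrArg DFunLike.coe h1)
  simpa [coe_aeval_eq_eval] using h2

omit [DecidableEq ι] [Fintype S] in
theorem res_hom {m : S → ℕ} {s : MvPolynomial ι ℂ} (hs : MHom b m s) :
    (res ε v s).IsHomogeneous (m i) := by
  rw [res, aeval_def, eval₂_eq']
  refine IsHomogeneous.sum _ _ _ fun n hn => ?_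
  have hw := hs i (mem_support_iff.mp hn)
  rw [weight_eq] at hw
  have h1 : (∏ x, (if h : b x = i then X (ε ⟨x, h⟩) else C (v x) :
      MvPolynomial (Fin (N + 1)) ℂ) ^ n x).IsHomogeneous (∑ x, n x * ind b i x) := by
    refine IsHomogeneous.prod _ _ _ fun x _ => ?_
    unfold ind
    split_ifs with h
    · have := (isHomogeneous_X ℂ (ε ⟨x, h⟩)).pow (n x)
      rw [mul_one]
      rwa [one_mul] at this
    · have := (isHomogeneous_C (Fin (N + 1)) (v x)).pow (n x)
      rw [mul_zero]
      rwa [zero_mul] at this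
  rw [hw] at h1
  have h2 := (isHomogeneous_C (Fin (N + 1)) (coeff n s)).mul h1
  rwa [zero_add] at h2

omit [Fintype ι] [DecidableEq ι] [Fintype S] in
theorem up_hom {m : ℕ} {s : MvPolynomial (Fin (N + 1)) ℂ} (hs : s.IsHomogeneous m) (j : S) :
    IsWeightedHomogeneous (ind b j) (up ε s) (if j = i then m else 0) := by
  rw [up, aeval_def, eval₂_eq']
  refine (weightedHomogeneousSubmodule ℂ (ind b j) _).sum_mem fun n hn => ?_
  rw [mem_weightedHomogeneousSubmodule]
  have hw := hs (mem_support_iff.mp hn)
  rw [Finsupp.weight_apply, Finsupp.sum_fintype _ _ (fun _ => by simp)] at hw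
  have h1 : IsWeightedHomogeneous (ind b j)
      (∏ a, (X (ε.symm a).1 : MvPolynomial ι ℂ) ^ n a) (∑ a, n a • ind b j (ε.symm a).1) :=
    IsWeightedHomogeneous.prod _ _ _ fun a _ => (isWeightedHomogeneous_X ℂ _ _).pow _
  have h2 : ∑ a, n a • ind b j (ε.symm a).1 = if j = i then m else 0 := by
    unfold ind
    simp only [(ε.symm _).2]
    split_ifs with h3 h4 h4
    · rw [← hw]
      simp
    · exact absurd h3.symm h4
    · exact absurd h4.symm h3
    · simp
  rw [h2] at h1
  have h3 := (isWeightedHomogeneous_C (ind b j) (coeff n s)).mul h1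
  rwa [zero_add] at h3

theorem dir_res (y' : Fin (N + 1) → ℂ) (s : MvPolynomial ι ℂ) :
    dir (cut ε v) y' (res ε v s) = dir v (full ε 0 y') s := by
  induction s using MvPolynomial.induction_on with
  | C a =>
    have h1 : res ε v (C a) = C a := by simp [res]
    rw [h1, dir_C, dir_C]
  | add p q hp hq =>
    have hadd : ∀ {σ : Type} [Fintype σ] (x y : σ → ℂ) (p q : MvPolynomial σ ℂ),
        dir x y (p + q) = dir x y p + dir x y q := by
      intro σ _ x y p q
      unfold dir
      rw [← Finset.sum_add_distrib]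
      refine Finset.sum_congr rfl fun i _ => ?_
      rw [map_add, map_add, add_mul]
    rw [map_add, hadd, hadd, hp, hq]
  | mul_X p x hp =>
    have h1 : eval (cut ε v) (res ε v p) = eval v p := by rw [eval_res, full_cut]
    have h2 : eval (cut ε v) (res ε v (X x)) = v x := by rw [eval_res, full_cut, eval_X]
    have h3 : dir (cut ε v) y' (res ε v (X x)) = full ε 0 y' x := by
      unfold full
      by_cases h : b x = i
      · rw [dif_pos h, res, aeval_X, dif_pos h, dir_X]
      · rw [dif_neg h, res, aeval_X, dif_neg h, dir_C]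
        rfl
    rw [map_mul, dir_mul, dir_mul, hp, h1, h2, h3, dir_X, eval_X]

theorem dir_up (v u : ι → ℂ) (s : MvPolynomial (Fin (N + 1)) ℂ) :
    dir v u (up ε s) = dir (cut ε v) (cut ε u) s := by
  induction s using MvPolynomial.induction_on with
  | C a =>
    have h1 : up ε (C a) = C a := by simp [up]
    rw [h1, dir_C, dir_C]
  | add p q hp hq =>
    have hadd : ∀ {σ : Type} [Fintype σ] (x y : σ → ℂ) (p q : MvPolynomial σ ℂ),
        dir x y (p + q) = dir x y p + dir x y q := by
      intro σ _ x y p q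
      unfold dir
      rw [← Finset.sum_add_distrib]
      refine Finset.sum_congr rfl fun i _ => ?_
      rw [map_add, map_add, add_mul]
    rw [map_add, hadd, hadd, hp, hq]
  | mul_X p x hp =>
    have h3 : up ε (X x) = X (ε.symm x).1 := by simp [up]
    rw [map_mul, dir_mul, dir_mul, hp, eval_up, h3, dir_X, dir_X, eval_X, eval_X]
    rfl

end slice

/-- Euler's identity in each block -/
theorem euler {b : ι → S} {m : S → ℕ} {s : MvPolynomial ι ℂ} (hs : MHom b m s) (T : S → ℂ)
    (v : ι → ℂ) : dir v (fun x => T (b x) * v x) s = (∑ j, T j * m j) * eval v s := by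
  have h1 : ∀ j, ∑ x, (ind b j x : ℂ) * (v x * eval v (pderiv x s)) = m j * eval v s := by
    intro j
    have h2 := congrArg (eval v) ((hs j).sum_weight_X_mul_pderiv)
    rw [map_sum] at h2
    simp only [nsmul_eq_mul, map_mul, map_natCast, eval_X] at h2
    exact h2
  unfold dir
  have h2 : ∀ x, eval v (pderiv x s) * (T (b x) * v x) =
      ∑ j, T j * ((ind b j x : ℂ) * (v x * eval v (pderiv x s))) := by
    intro x
    rw [Finset.sum_eq_single (b x)]
    · simp only [ind, if_true, Nat.cast_one]
      ring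
    · intro j _ hj
      simp [ind, hj.symm]
    · intro h
      exact absurd (Finset.mem_univ _) h
  rw [Finset.sum_congr rfl (fun x _ => h2 x), Finset.sum_comm, Finset.sum_mul]
  refine Finset.sum_congr rfl fun j _ => ?_
  rw [← Finset.mul_sum, h1 j]
  ring

end Pool.Agent.R920.WP
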