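import Pool.Agent.R920.WP.Sec
import Pool.Agent.R920.WQ.Tan

/-!
# Tangent vectors at points with two nonzero coordinates in two blocks
-/

set_option autoImplicit false

namespace Pool.Agent.R920.WP

open MvPolynomial Pool.Agent.R920.WC Pool.Agent.R920.WQ

variable {G : Type} [Group G] {ι S : Type} [Fintype ι] [DecidableEq ι] [Fintype S] [DecidableEq S]

omit [DecidableEq ι] in
theorem dlog_mul {v u : ι → ℂ} {A B : MvPolynomial ι ℂ} {x y : ℂ}
    (hA : dir v u A = x * eval v A) (hB : dir v u B = y * eval v B) :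
    dir v u (A * B) = (x + y) * eval v (A * B) := by
  rw [dir_mul, hA, hB, map_mul]
  ring

theorem dlog_pow {v u : ι → ℂ} {i : ι} {x : ℂ} (hx : u i = x * v i) (n : ℕ) :
    dir v u (X i ^ n) = (n * x) * eval v (X i ^ n : MvPolynomial ι ℂ) := by
  rw [dir_X_pow v u hx, map_pow, eval_X]

omit [Fintype S] in
theorem dlog_prod {v u ξ : ι → ℂ} {p : S → ι} (hξ : ∀ j, u (p j) = ξ (p j) * v (p j))
    (e : S → ℕ) (T : Finset S) :
    dir v u (∏ j ∈ T, X (p j) ^ e j) = (∑ j ∈ T, e j * ξ (p j)) *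
      eval v (∏ j ∈ T, X (p j) ^ e j : MvPolynomial ι ℂ) := by
  induction T using Finset.induction_on with
  | empty =>
    rw [Finset.prod_empty, Finset.sum_empty, ← map_one C, dir_C, zero_mul]
  | insert j T hj ih =>
    rw [Finset.prod_insert hj, Finset.sum_insert hj]
    exact dlog_mul (dlog_pow (hξ j) _) ih

namespace Setup

variable {b : ι → S} {α : ι → G →* ℂˣ} {d : S → ℕ} {f : MvPolynomial ι ℂ} [Finite G]

/-- variables which vanish at the point, for a pair of coordinates in another block -/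
theorem tan_zero (S' : Setup b α d f) (hb : Function.Surjective b)
    {e : S → ℕ} (he : ∀ j, Nat.card G + 1 ≤ e j) (χ : G →* ℂˣ) {v u : ι → ℂ}
    {c : ℂ} (hc : ∀ s, IsSec b α e χ s → dir v u s = c * eval v s)
    {p : S → ι} (hp : ∀ j, b (p j) = j) (hvp : ∀ j, v (p j) ≠ 0)
    {q : ι} (hq : q ≠ p (b q)) (hvq : v q ≠ 0) {l : ι} (hl : b l ≠ b q) (hvl : v l = 0) :
    u l = 0 := by
  have he' : ∀ j, Nat.card G ≤ e j := fun j => by have := he j; omega
  obtain ⟨m, n, _, h⟩ := S'.exists_good hb χ p (k := b l) l hq.symm (hp (b q)) rfl (he' _) 1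
  have hel : 1 ≤ e (b l) := by
    have := he (b l)
    omega
  have h1 := hc _ (h.isSec hp (hp _) rfl rfl hl.symm hel)
  rw [eval_mono, hvl, pow_one, zero_mul, zero_mul, mul_zero, mul_zero] at h1
  unfold mono at h1
  rw [dir_mul, mul_assoc (X l ^ 1), dir_mul, pow_one, dir_X] at h1
  simp only [map_mul, map_pow, eval_X, map_prod, hvl, zero_mul, add_zero, zero_add] at h1
  have hne : v (p (b q)) ^ m * v q ^ n * (v (p (b l)) ^ (e (b l) - 1) *
      ∏ j ∈ rest (b q) (b l), v (p j) ^ e j) ≠ 0 :=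
    mul_ne_zero (mul_ne_zero (pow_ne_zero _ (hvp _)) (pow_ne_zero _ hvq))
      (mul_ne_zero (pow_ne_zero _ (hvp _))
        (Finset.prod_ne_zero_iff.2 fun j _ => pow_ne_zero _ (hvp j)))
  refine (mul_eq_zero.1 ?_).resolve_left hne
  linear_combination h1

/-- tangent vectors at points with two nonzero coordinates in two blocks -/
theorem tan_two (S' : Setup b α d f) (hb : Function.Surjective b)
    {e : S → ℕ} (he : ∀ j, Nat.card G + 1 ≤ e j) (χ : G →* ℂˣ) {v u : ι → ℂ}
    {c : ℂ} (hc : ∀ s, IsSec b α e χ s → dir v u s = c * eval v s)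
    {p : S → ι} (hp : ∀ j, b (p j) = j) (hvp : ∀ j, v (p j) ≠ 0)
    {q r : ι} (hq : q ≠ p (b q)) (hr : r ≠ p (b r)) (hqr : b q ≠ b r) (hvq : v q ≠ 0)
    (hvr : v r ≠ 0) : ∃ τ : S → ℂ, ∀ l, u l = τ (b l) * v l := by
  have he' : ∀ j, Nat.card G ≤ e j := fun j => by have := he j; omega
  obtain ⟨ξ, hξ⟩ : ∃ ξ : ι → ℂ, ∀ l, v l ≠ 0 → u l = ξ l * v l :=
    ⟨fun l => u l / v l, fun l hl => by rw [div_mul_cancel₀ _ hl]⟩
  have hg0 : (Nat.card G : ℂ) ≠ 0 := by
    have := Nat.card_pos (α := G)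
    exact_mod_cast this.ne'
  -- values of the good monomials
  have hval : ∀ (i k : S) (x y l : ι) (β m n : ℕ), Good α e χ p i k x y l β m n → b x = i →
      b y = i → b l = k → i ≠ k → β ≤ e k → v x ≠ 0 → v y ≠ 0 → v l ≠ 0 →
      m * ξ x + n * ξ y + (β * ξ l + (e k - β : ℕ) * ξ (p k) +
        ∑ j ∈ rest i k, e j * ξ (p j)) = c := by
    intro i k x y l β m n h hx hy hl hik hβ hvx hvy hvl
    have h1 := hc _ (h.isSec hp hx hy hl hik hβ)
    have h2 := dlog_mul (dlog_mul (dlog_pow (hξ x hvx) m) (dlog_pow (hξ y hvy) n))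
      (dlog_mul (dlog_mul (dlog_pow (hξ l hvl) β) (dlog_pow (hξ (p k) (hvp k)) (e k - β)))
        (dlog_prod (fun j => hξ (p j) (hvp j)) e (rest i k)))
    change dir v u (mono e p i k x y l β m n) = _ * eval v (mono e p i k x y l β m n) at h2
    rw [h1] at h2
    have hne : eval v (mono e p i k x y l β m n) ≠ 0 := by
      rw [eval_mono]
      exact mul_ne_zero (mul_ne_zero (pow_ne_zero _ hvx) (pow_ne_zero _ hvy))
        (mul_ne_zero (mul_ne_zero (pow_ne_zero _ hvl) (pow_ne_zero _ (hvp k)))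
          (Finset.prod_ne_zero_iff.2 fun j _ => pow_ne_zero _ (hvp j)))
    exact (mul_right_cancel₀ hne h2).symm
  have hroot : ξ (p (b q)) = ξ q := by
    obtain ⟨m, n, _, h⟩ := S'.exists_good hb χ p (k := b q) q hr.symm (hp (b r)) rfl (he' _) 0
    have h' : Good α e χ p (b r) (b q) (p (b r)) r q (Nat.card G) m n := by
      refine ⟨h.1, fun g => ?_⟩
      rw [h.2 g, pow_card, pow_zero, Nat.sub_zero]
      congr 3
      conv_lhs => rw [← Nat.sub_add_cancel (he' (b q)), pow_add, pow_card, mul_one]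
    have h1 := hval _ _ _ _ _ _ _ _ h (hp _) rfl rfl hqr.symm (Nat.zero_le _) (hvp _) hvr hvq
    have h2 := hval _ _ _ _ _ _ _ _ h' (hp _) rfl rfl hqr.symm (he' _) (hvp _) hvr hvq
    rw [Nat.sub_zero] at h1
    rw [Nat.cast_sub (he' _)] at h2
    push_cast at h1
    refine mul_left_cancel₀ hg0 ?_
    linear_combination h1 - h2
  have hstep : ∀ (i : S) (y : ι), b y = i → y ≠ p i → v y ≠ 0 → ξ (p i) = ξ y →
      ∀ l, b l ≠ i → v l ≠ 0 → ξ l = ξ (p (b l)) := by
    intro i y hy hyp hvy hρy l hli hvl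
    obtain ⟨u0, n0, _, h0⟩ := S'.exists_good hb χ p (k := b l) l hyp.symm (hp i) hy (he' _) 0
    obtain ⟨u1, n1, _, h1⟩ := S'.exists_good hb χ p (k := b l) l hyp.symm (hp i) hy (he' _) 1
    have hel : 1 ≤ e (b l) := by
      have := he (b l)
      omega
    have e0 := hval _ _ _ _ _ _ _ _ h0 (hp i) hy rfl (Ne.symm hli) (Nat.zero_le _) (hvp i) hvy hvl
    have e1 := hval _ _ _ _ _ _ _ _ h1 (hp i) hy rfl (Ne.symm hli) hel (hvp i) hvy hvl
    have k0 : (u0 : ℂ) + n0 = e i := by exact_mod_cast h0.1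
    have k1 : (u1 : ℂ) + n1 = e i := by exact_mod_cast h1.1
    rw [Nat.sub_zero] at e0
    rw [Nat.cast_sub hel] at e1
    push_cast at e0 e1
    rw [← hρy] at e0 e1
    linear_combination e1 - e0 + ξ (p i) * k0 - ξ (p i) * k1
  have hall : ∀ l, v l ≠ 0 → ξ l = ξ (p (b l)) := by
    intro l hvl
    by_cases hl : b l = b q
    · refine hstep (b r) r rfl hr hvr ?_ l ?_ hvl
      · exact (hstep (b q) q rfl hq hvq hroot r hqr.symm hvr).symm
      · rw [hl]
        exact hqr
    · exact hstep (b q) q rfl hq hvq hroot l hl hvl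
  refine ⟨fun j => ξ (p j), fun l => ?_⟩
  by_cases hl : v l = 0
  · rw [hl, mul_zero]
    by_cases hlq : b l = b q
    · exact S'.tan_zero hb he χ hc hp hvp hr hvr (by rw [hlq]; exact hqr) hl
    · exact S'.tan_zero hb he χ hc hp hvp hq hvq hlq hl
  · rw [hξ l hl, hall l hl]

end Setup

end Pool.Agent.R920.WP
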